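import Pool.Agent.KS6_62.IU.Ext

set_option autoImplicit false
set_option linter.unusedSimpArgs false
set_option linter.unusedVariables false
set_option linter.style.longLine false

/-!
MP_a656b1_co.  The largest `I,U`-families in a product of even chains: their size, all of them, and
their number.

If every `e_i` is even then `4 g(e) + 1 + ∑ e_i = ∏ (e_i + 1)`; if moreover every `e_i` is positive,
the `I,U`-families of this size are exactly the `n!` families `Fam e σ`, one for every order `σ` of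
the coordinates: `a` belongs to `Fam e σ` if among the coordinates `k` with `a_k ≠ e_k / 2` the first
one has `a_k > e_k / 2` and the last one has `a_k < e_k / 2`.

Proof.  A family is contained in `U \ V` for two maximal `I`-families `U`, `V`.  Slicing in any
coordinate and Kleitman's correlation inequality give a lower bound for `|U ∩ V|`, and equality is
inherited by all coordinate subboxes.  For two coordinates equality forces a lexicographic pair, for
three coordinates it excludes a cyclic pattern, and for more coordinates a comparison with the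
lexicographic pair of the resulting order finishes the argument.
-/

open Finset

namespace Pool.Agent.Results.MP_a656b1_co.ExtremalFamilies

open Pool.Agent.KS6_62.IU

/-- `M(e)`: the vectors `a` with `0 ≤ a_i ≤ e_i` for all `i`. -/
def M {n : ℕ} (e : Fin n → ℕ) : Finset (Fin n → ℕ) :=
  Fintype.piFinset (fun i => range (e i + 1))

/-- `F ⊆ M(e)` is an `I,U`-family: for all `a, b ∈ F`, equal or not, there are an index `i` with
`a_i + b_i > e_i` and an index `j` with `a_j + b_j < e_j`. -/
def IsIU {n : ℕ} (e : Fin n → ℕ) (F : Finset (Fin n → ℕ)) : Prop :=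
  F ⊆ M e ∧ ∀ a ∈ F, ∀ b ∈ F, (∃ i, e i < a i + b i) ∧ (∃ j, a j + b j < e j)

open Classical in
/-- `g(e)`: the maximum size of an `I,U`-family in `M(e)`. -/
noncomputable def g {n : ℕ} (e : Fin n → ℕ) : ℕ :=
  ((M e).powerset.filter (IsIU e)).sup card

open Classical in
/-- The family of the order `σ`: the vectors `a` of `M(e)` such that, among the indices `k` with
`2 a_k ≠ e_k`, the one with the smallest `σ k` has `2 a_k > e_k` and the one with the largest `σ k`
has `2 a_k < e_k`. -/
noncomputable def Fam {n : ℕ} (e : Fin n → ℕ) (σ : Equiv.Perm (Fin n)) : Finset (Fin n → ℕ) :=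
  (M e).filter (fun a => (∃ i, e i < 2 * a i ∧ ∀ k, 2 * a k ≠ e k → σ i ≤ σ k) ∧
    (∃ k, 2 * a k < e k ∧ ∀ i, 2 * a i ≠ e i → σ i ≤ σ k))

/-- **The largest `I,U`-families for even `e_i`.**  Their size `g(e)` satisfies
`4 g(e) + 1 + ∑ e_i = ∏ (e_i + 1)`; if all `e_i` are positive, they are exactly the families
`Fam e σ` of the orders `σ` of the coordinates, and there are exactly `n!` of them. -/
theorem result (n : ℕ) (e : Fin n → ℕ) (he : ∀ i, Even (e i)) :
    4 * g e + 1 + ∑ i, e i = ∏ i, (e i + 1) ∧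
    ((∀ i, 0 < e i) →
      (∀ F : Finset (Fin n → ℕ),
        (IsIU e F ∧ #F = g e) ↔ ∃ σ : Equiv.Perm (Fin n), F = Fam e σ) ∧
      {F : Finset (Fin n → ℕ) | IsIU e F ∧ #F = g e}.ncard = n.factorial) := by
  classical
  have h1 : ∀ i, ∃ k, e i = 2 * k := fun i => by
    obtain ⟨k, hk⟩ := he i
    exact ⟨k, by omega⟩
  choose m hm using h1
  let ψ : (Fin n → ℕ) → (Fin n → ℤ) := fun a i => (a i : ℤ) - m i
  have hψ : ∀ a i, ψ a i = (a i : ℤ) - m i := fun a i => rfl
  have hMem : ∀ a : Fin n → ℕ, a ∈ M e ↔ ψ a ∈ Box m := by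
    intro a
    rw [mem_Box, M, Fintype.mem_piFinset]
    refine forall_congr' (fun i => ?_)
    rw [mem_range, hm i, hψ]
    omega
  have hinj : Function.Injective ψ := by
    intro a b h
    ext i
    have := congrFun h i
    rw [hψ, hψ] at this
    omega
  have hsurj : ∀ x ∈ Box m, ∃ a, ψ a = x := by
    intro x hx
    refine ⟨fun i => (x i + m i).toNat, ?_⟩
    funext i
    have := mem_Box.1 hx i
    show (((x i + m i).toNat : ℕ) : ℤ) - m i = x i
    omega
  have hsum : ∑ i, e i = 2 * ∑ i, m i := by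
    rw [mul_sum]
    exact sum_congr rfl (fun i _ => hm i)
  have hprod : ∏ i, (e i + 1) = #(Box m) := by
    rw [card_Box]
    exact prod_congr rfl (fun i _ => by rw [hm i])
  -- families
  have hIU : ∀ F : Finset (Fin n → ℕ), IsIU e F ↔ IUZ m (F.image ψ) := by
    intro F
    constructor
    · rintro ⟨hF, h⟩
      refine ⟨?_, ?_⟩
      · intro x hx
        obtain ⟨a, ha, rfl⟩ := mem_image.1 hx
        exact (hMem a).1 (hF ha)
      · intro x hx y hy
        obtain ⟨a, ha, rfl⟩ := mem_image.1 hx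
        obtain ⟨b, hb, rfl⟩ := mem_image.1 hy
        obtain ⟨⟨i, hi⟩, ⟨j, hj⟩⟩ := h a ha b hb
        rw [hm i] at hi
        rw [hm j] at hj
        exact ⟨⟨i, by rw [hψ, hψ]; omega⟩, ⟨j, by rw [hψ, hψ]; omega⟩⟩
    · rintro ⟨hF, h⟩
      refine ⟨?_, ?_⟩
      · intro a ha
        exact (hMem a).2 (hF (mem_image_of_mem _ ha))
      · intro a ha b hb
        obtain ⟨⟨i, hi⟩, ⟨j, hj⟩⟩ := h _ (mem_image_of_mem ψ ha) _ (mem_image_of_mem ψ hb)
        rw [hψ, hψ] at hi hj
        refine ⟨⟨i, ?_⟩, ⟨j, ?_⟩⟩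
        · rw [hm i]
          omega
        · rw [hm j]
          omega
  have hcard : ∀ F : Finset (Fin n → ℕ), #(F.image ψ) = #F :=
    fun F => card_image_of_injective _ hinj
  have hFam : ∀ σ, (Fam e σ).image ψ = FamZ m σ := by
    intro σ
    have hiff : ∀ a, ((∃ i, e i < 2 * a i ∧ ∀ k, 2 * a k ≠ e k → σ i ≤ σ k) ∧
        (∃ k, 2 * a k < e k ∧ ∀ i, 2 * a i ≠ e i → σ i ≤ σ k)) ↔
        ((∃ i, 0 < ψ a i ∧ ∀ k, ψ a k ≠ 0 → σ i ≤ σ k) ∧
        (∃ k, ψ a k < 0 ∧ ∀ i, ψ a i ≠ 0 → σ i ≤ σ k)) := by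
      intro a
      have q1 : ∀ i, (e i < 2 * a i ↔ 0 < ψ a i) := fun i => by
        rw [hψ, hm i]
        omega
      have q2 : ∀ i, (2 * a i < e i ↔ ψ a i < 0) := fun i => by
        rw [hψ, hm i]
        omega
      have q3 : ∀ i, (2 * a i ≠ e i ↔ ψ a i ≠ 0) := fun i => by
        rw [hψ, hm i]
        omega
      simp only [q1, q2, q3]
    ext x
    unfold Fam FamZ
    rw [mem_image, mem_filter]
    constructor
    · rintro ⟨a, ha, rfl⟩
      rw [mem_filter, hMem, hiff] at ha
      exact ha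
    · rintro ⟨hx, h⟩
      obtain ⟨a, rfl⟩ := hsurj x hx
      refine ⟨a, ?_, rfl⟩
      rw [mem_filter, hMem, hiff]
      exact ⟨hx, h⟩
  have hup : ∀ F, IsIU e F → 4 * #F + 1 + 2 * ∑ i, m i ≤ #(Box m) := by
    intro F hF
    obtain ⟨U, V, -, -, -, h, -⟩ := upper m (F.image ψ) ((hIU F).1 hF)
    rw [hcard] at h
    exact h
  have hg1 : ∀ F, IsIU e F → #F ≤ g e := fun F hF =>
    Finset.le_sup (f := card) (mem_filter.2 ⟨mem_powerset.2 hF.1, hF⟩)
  have hg2 : 4 * g e + 1 + 2 * ∑ i, m i ≤ #(Box m) := by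
    have hne : ((M e).powerset.filter (IsIU e)).Nonempty :=
      ⟨∅, mem_filter.2 ⟨mem_powerset.2 (empty_subset _), empty_subset _,
        fun a ha => absurd ha (notMem_empty _)⟩⟩
    obtain ⟨F, hF, hFe⟩ := Finset.exists_mem_eq_sup _ hne card
    have := hup F (mem_filter.1 hF).2
    unfold g
    rw [hFe]
    exact this
  have hFc : ∀ σ, 4 * #(Fam e σ) + 1 + 2 * ∑ i, m i = #(Box m) := by
    intro σ
    rw [← hcard, hFam]
    exact famZ_card m σ
  have hFI : ∀ σ, IsIU e (Fam e σ) := by
    intro σ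
    rw [hIU, hFam]
    exact famZ_iu m σ
  have hge : 4 * g e + 1 + 2 * ∑ i, m i = #(Box m) := by
    have h2 := hg1 _ (hFI 1)
    have h3 := hFc 1
    omega
  refine ⟨by rw [hsum, hprod]; exact hge, fun hpos => ?_⟩
  have hm0 : ∀ i, m i ≠ 0 := by
    intro i
    have := hpos i
    rw [hm i] at this
    omega
  have himg : Function.Injective (fun F : Finset (Fin n → ℕ) => F.image ψ) :=
    Finset.image_injective hinj
  have hchar : ∀ F : Finset (Fin n → ℕ),
      (IsIU e F ∧ #F = g e) ↔ ∃ σ : Equiv.Perm (Fin n), F = Fam e σ := by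
    intro F
    constructor
    · rintro ⟨hF, hc⟩
      obtain ⟨σ, hσ⟩ := (extremal m hm0 (F.image ψ)).1 ⟨(hIU F).1 hF, by
        rw [hcard, hc]
        exact hge⟩
      refine ⟨σ, himg ?_⟩
      rw [← hFam] at hσ
      exact hσ
    · rintro ⟨σ, rfl⟩
      refine ⟨hFI σ, ?_⟩
      have := hFc σ
      omega
  refine ⟨hchar, ?_⟩
  have hset : {F : Finset (Fin n → ℕ) | IsIU e F ∧ #F = g e} = Set.range (Fam e) := by
    ext F
    rw [Set.mem_ofPred_eq, hchar, Set.mem_range]
    exact ⟨fun ⟨σ, h⟩ => ⟨σ, h.symm⟩, fun ⟨σ, h⟩ => ⟨σ, h.symm⟩⟩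
  have hFinj : Function.Injective (Fam e) := by
    intro σ τ h
    apply famZ_injective m hm0
    rw [← hFam, ← hFam, h]
  rw [hset, ← Set.image_univ, Set.ncard_image_of_injective _ hFinj, Set.ncard_univ, Nat.card_perm,
    Nat.card_eq_fintype_card, Fintype.card_fin]

end Pool.Agent.Results.MP_a656b1_co.ExtremalFamilies
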